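import Pool.Agent.Helper65.HCS.Goals
import Pool.Agent.Helper14.HC.PAR

/-!
# Circuits of unbounded size: the parameters (PAR)
-/

namespace Pool.Agent.Helper35.HCS

open Pool.Agent.Helper65.LinSpace Pool.Agent.Helper78.Mpc Pool.Agent.Helper28.Ram Finset Filter
open Pool.Agent.Helper65.HCS Pool.Agent.Helper65 Pool.Agent.Helper28.Long

theorem par1 (C : ℝ) : ∀ᶠ n : ℕ in atTop, ∀ x s a : ℕ, 1 ≤ s →
    (x : ℝ) * s * ((Nat.log 2 n : ℝ) + 1) ^ 3 ≤ C * ((n : ℝ) + 1) ^ 2 →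
    (s : ℝ) * ((Nat.log 2 n : ℝ) + 1) ^ 2 ≤ C * ((n : ℝ) + 1) →
    (a : ℝ) * ((Nat.log 2 n : ℝ) + 1) ^ 2 ≤ C * ((n : ℝ) + 1) →
    s ≤ RT.qT n - 1 ∧ s ≤ Pool.Agent.Helper28.Long.ZL n ∧ a ≤ Pool.Agent.Helper28.Long.ZL n ∧
      s < n + 2 ∧ a < n + 2 ∧ x < RT.qT n * (RT.qT n / (s + 1)) := by
  filter_upwards [Pool.Agent.Helper14.HC.par1 C, le_ZL C] with n h1 hZ x s a hs hx h2 h3
  obtain ⟨e1, e2, e3⟩ := h1 x s hs hx h2
  have hn := ZL_le n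
  have ha : a ≤ ZL n := by
    apply hZ
    rw [le_div_iff₀ (by positivity)]
    exact h3
  exact ⟨e1, e2, ha, by omega, by omega, e3⟩

theorem par2 (c : ℕ) : ∀ᶠ n : ℕ in atTop, ∀ S ≤ Pool.Agent.Helper28.Long.ZL n,
    ∀ b ≤ Pool.Agent.Helper28.Long.ZL n,
    c * (4 * S + 6 * (b + ll n) + 8) ≤ LW n ∧
    c + LW n + 4 * S + 6 * (b + ll n) + 8 ≤ 2 ^ (2 * ll n) ∧
    c * (8 * b + 8) ≤ LW n ∧ c + LW n + 8 * b + 8 ≤ 2 ^ (2 * ll n) ∧
    (∀ x : ℕ, Nat.log 2 x = n → 2 ^ (S + 1) ≤ CR x ∧ 2 ^ (b + 2) ≤ CR x) := by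
  filter_upwards [ev_ll_cube (40 * c + 40), ev_lll_ge (20 * c),
    eventually_ge_atTop (c + 20)] with n h1 h2 h3 S hS b hb
  have hl := ll_pos n
  have hLn : LW n ≤ n := Nat.div_le_self _ _
  have hSn : S ≤ n := hS.trans (ZL_le n)
  have hbn : b ≤ n := hb.trans (ZL_le n)
  have hLl : (40 * c + 40) * ll n ≤ LW n := by
    unfold LW
    rw [Nat.le_div_iff_mul_le hl]
    refine le_trans ?_ h1
    calc (40 * c + 40) * ll n * ll n = (40 * c + 40) * (ll n * ll n) := by ring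
      _ ≤ (40 * c + 40) * (ll n * ll n * ll n) :=
        Nat.mul_le_mul_left _ (Nat.le_mul_of_pos_right _ hl)
  have h7 : ZL n * ll (ll n) ≤ LW n := Nat.div_mul_le_self _ _
  have hZ : 20 * c * ZL n ≤ LW n := by
    calc 20 * c * ZL n ≤ ll (ll n) * ZL n := Nat.mul_le_mul_right _ h2
      _ = ZL n * ll (ll n) := Nat.mul_comm _ _
      _ ≤ LW n := h7
  have hcS : c * S ≤ c * ZL n := Nat.mul_le_mul_left _ hS
  have hcb : c * b ≤ c * ZL n := Nat.mul_le_mul_left _ hb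
  have hZ2 : 20 * (c * ZL n) ≤ LW n := by
    rw [← Nat.mul_assoc]
    exact hZ
  have hcl : c ≤ c * ll n := Nat.le_mul_of_pos_right _ hl
  have hLl2 : 40 * (c * ll n) + 40 * ll n ≤ LW n := by
    calc 40 * (c * ll n) + 40 * ll n = (40 * c + 40) * ll n := by ring
      _ ≤ LW n := hLl
  have hl2 := lt_two_pow_ll n
  have h8 : (n + 1) * (n + 1) ≤ 2 ^ (2 * ll n) := by
    rw [two_mul, pow_add]
    exact Nat.mul_le_mul hl2 hl2
  have h9 : 20 * n ≤ (n + 1) * (n + 1) := by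
    nlinarith
  refine ⟨?_, ?_, ?_, ?_, fun x hx => ⟨pow_le_CR ?_, pow_le_CR ?_⟩⟩
  · have h10 : c * (4 * S + 6 * (b + ll n) + 8) = 4 * (c * S) + 6 * (c * b) + 6 * (c * ll n) + 8 * c := by
      ring
    omega
  · omega
  · have h10 : c * (8 * b + 8) = 8 * (c * b) + 8 * c := by
      ring
    omega
  · omega
  · rw [hx]
    omega
  · rw [hx]
    omega

/-- PAR. -/
theorem par : PAR_stmt := ⟨par1, par2⟩

end Pool.Agent.Helper35.HCS
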